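import Pool.Agent.OSX47.Conv
import Pool.Agent.OrdThm.Half
import Pool.Agent.OSX82.Core
import Pool.Agent.MDP.Bags
import Pool.Agent.MDP.ThmA

/-! Collective attachment suffices for plain colourings: if every rich strongly connected subset
of `K` is attached in both directions through a world `Om`, then `K` is poor or there is a
subdivision (KEY), and every `K` splits into a poor part and a part without attached strongly
connected subsets (SPLIT). -/

open Classical

namespace Pool.Agent.Key86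

open Pool.Agent.Mader (Conn Acyc comp comp_conn comp_subset mem_comp_self subset_comp_of_inter)
open Pool.Agent.MDP (Col Adj2 thmA bags)
open Pool.Agent.OSX47 (AttB router_end conn_rev)
open Pool.Agent.OSX82 (rev col_of_lcol lcol_of_col)
open Pool.Agent.OrdThm (nb mem_nb LCol Guard tough)

universe u

variable {V : Type u}

/-- Attached in both directions through the world `Om`. -/
def Att2 (a : V → V → Prop) (Om Z : Finset V) (N : ℕ) (S : Finset V) : Prop :=
  AttB a Om Z N S ∧ AttB (rev a) Om Z N S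

/-- Branch vertices `x i` and disjoint sets `T e` which contain the interiors of the paths. -/
def Succ {n M : ℕ} (a : V → V → Prop) (tl hd : Fin M → Fin n) : Prop :=
  ∃ (x : Fin n → V) (T : Fin M → Finset V), Function.Injective x ∧ (∀ e i, x i ∉ T e) ∧
    (∀ e e', e ≠ e' → Disjoint (T e) (T e')) ∧
    ∀ e, Relation.ReflTransGen (fun u v => a u v ∧ (v ∈ T e ∨ v = x (hd e)))
      (x (tl e)) (x (hd e))

theorem lcol_iff {a : V → V → Prop} {X : Finset V} {k : ℕ} : LCol a 0 X k ↔ Col a X k :=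
  ⟨col_of_lcol, fun h => by
    have h1 := lcol_of_col 0 h
    rwa [Nat.zero_add, Nat.mul_one] at h1⟩

theorem col_empty (a : V → V → Prop) (k : ℕ) : Col a (∅ : Finset V) k := by
  refine ⟨fun _ => 0, fun v hv => absurd hv (Finset.notMem_empty v), fun i Z hZ hne => ?_⟩
  obtain ⟨z, hz⟩ := hne
  exact absurd (Finset.mem_filter.1 (hZ hz)).1 (Finset.notMem_empty z)

/-- A maximal `f`-colourable subset. -/
theorem exists_max_col (a : V → V → Prop) (K : Finset V) (f : ℕ) :
    ∃ Q ⊆ K, Col a Q f ∧ ∀ y ∈ K, y ∉ Q → ¬ Col a (insert y Q) f := by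
  obtain ⟨Q, hQ, hmax⟩ := Finset.exists_max_image (K.powerset.filter (fun Q => Col a Q f))
    Finset.card ⟨∅, Finset.mem_filter.2 ⟨Finset.mem_powerset.2 (Finset.empty_subset _),
      col_empty a f⟩⟩
  rw [Finset.mem_filter, Finset.mem_powerset] at hQ
  refine ⟨Q, hQ.1, hQ.2, fun y hy hyQ hc => ?_⟩
  have h1 := hmax (insert y Q) (Finset.mem_filter.2 ⟨Finset.mem_powerset.2
    (Finset.insert_subset hy hQ.1), hc⟩)
  rw [Finset.card_insert_of_notMem hyQ] at h1
  omega

/-- Toughness: if `Q` is `(g + N)`-colourable and `Q + y` is not, then after removing at most `N`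
vertices `y` lies in a rich strongly connected set. -/
theorem robust_vertex {a : V → V → Prop} {Q : Finset V} {y : V} {g N : ℕ}
    (hQ : Col a Q (g + N)) (hy : ¬ Col a (insert y Q) (g + N)) (T : Finset V)
    (hT : T.card ≤ N) (hyT : y ∉ T) :
    ∃ C ⊆ insert y Q, y ∈ C ∧ Disjoint C T ∧ Conn a C ∧ ¬ Col a C g := by
  -- a minimal bad set
  obtain ⟨W, hW, hWmin⟩ := Finset.exists_min_image
    ((insert y Q).powerset.filter (fun W => ¬ LCol a 0 W (g + N))) Finset.card
    ⟨insert y Q, Finset.mem_filter.2 ⟨Finset.mem_powerset.2 (Finset.Subset.refl _),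
      fun h => hy (lcol_iff.1 h)⟩⟩
  rw [Finset.mem_filter, Finset.mem_powerset] at hW
  obtain ⟨hWs, hWbad⟩ := hW
  have hmin : ∀ W' ⊂ W, LCol a 0 W' (g + N) := by
    intro W' hW'
    by_contra hb
    have h1 := hWmin W' (Finset.mem_filter.2 ⟨Finset.mem_powerset.2 (hW'.1.trans hWs), hb⟩)
    have h2 := Finset.card_lt_card hW'
    omega
  have hyW : y ∈ W := by
    by_contra hc
    apply hWbad
    refine lcol_iff.2 (hQ.mono ?_ le_rfl)
    intro v hv
    rcases Finset.mem_insert.1 (hWs hv) with h1 | h1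
    · exact absurd (h1 ▸ hv) hc
    · exact h1
  have hyX : y ∈ W \ T := Finset.mem_sdiff.2 ⟨hyW, hyT⟩
  have hCs : comp a (W \ T) y ⊆ W \ T := comp_subset _ _ _
  have hCT : Disjoint (comp a (W \ T) y) T :=
    Finset.disjoint_left.2 fun v hv => (Finset.mem_sdiff.1 (hCs hv)).2
  refine ⟨comp a (W \ T) y, (hCs.trans Finset.sdiff_subset).trans hWs, mem_comp_self hyX, hCT,
    comp_conn hyX, fun hcol => ?_⟩
  refine tough hWbad hmin (K := comp a (W \ T) y) (B := T) (hCs.trans Finset.sdiff_subset)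
    ⟨y, mem_comp_self hyX⟩ hCT.symm ?_ ((lcol_iff.2 hcol).mono le_rfl (Finset.Subset.refl _)
      (by omega))
  intro S hS hSW hne hST
  exact subset_comp_of_inter hyX (fun v hv => Finset.mem_sdiff.2
    ⟨hSW hv, Finset.disjoint_left.1 hST hv⟩) hS hne

/-- From collective to individual attachment, one direction. -/
theorem attB_of_comp {b : V → V → Prop} {Om Z Q : Finset V} {y : V} {N : ℕ}
    (hy : y ∉ Om ∪ Z) (hQ : Disjoint Q (Om ∪ Z)) (hOZ : Disjoint Om Z)
    (h : ∀ T : Finset V, T.card < N → y ∉ T → ∃ C ⊆ insert y Q, y ∈ C ∧ Disjoint C T ∧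
      Conn b C ∧ AttB b Om Z N C) : AttB b (Om ∪ Q) Z N {y} := by
  intro R hR
  by_contra hlt
  push Not at hlt
  set T : Finset V := nb b (Om ∪ Q ∪ Z) (R ∪ {y}) with hT
  have hyT : y ∉ T := fun hc => (mem_nb.1 hc).2.1 (Finset.mem_union_right _
    (Finset.mem_singleton_self y))
  obtain ⟨C, hCs, hyC, hCT, hCc, hCa⟩ := h T hlt hyT
  -- `C` lies in `R + y`
  have hCR : C ⊆ R ∪ {y} := by
    have h1 : C ∩ (R ∪ {y}) = C := by
      refine hCc.eq_of_closed Finset.inter_subset_left ⟨y, Finset.mem_inter.2 ⟨hyC,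
        Finset.mem_union_right _ (Finset.mem_singleton_self y)⟩⟩ ?_
      intro p hp q hq hpq
      refine Finset.mem_inter.2 ⟨hq, ?_⟩
      by_contra hqR
      apply Finset.disjoint_left.1 hCT hq
      rw [hT, mem_nb]
      refine ⟨?_, hqR, p, (Finset.mem_inter.1 hp).2, hpq⟩
      rcases Finset.mem_insert.1 (hCs hq) with h2 | h2
      · exact absurd (Finset.mem_union_right _ (Finset.mem_singleton.2 h2)) hqR
      · exact Finset.mem_union_left _ (Finset.mem_union_right _ h2)
    rw [← h1]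
    exact Finset.inter_subset_right
  have h1 := hCa (R ∩ Om) Finset.inter_subset_right
  refine absurd (h1.trans (Finset.card_le_card ?_)) (not_le.2 hlt)
  intro w hw
  rw [mem_nb] at hw
  obtain ⟨hw1, hw2, p, hp, hpw⟩ := hw
  rw [Finset.mem_union, not_or] at hw2
  rw [hT, mem_nb]
  refine ⟨?_, ?_, p, ?_, hpw⟩
  · rcases Finset.mem_union.1 hw1 with h2 | h2
    · exact Finset.mem_union_left _ (Finset.mem_union_left _ h2)
    · exact Finset.mem_union_right _ h2
  · intro h2
    rcases Finset.mem_union.1 h2 with h3 | h3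
    · rcases Finset.mem_union.1 hw1 with h4 | h4
      · exact hw2.1 (Finset.mem_inter.2 ⟨h3, h4⟩)
      · rcases Finset.mem_union.1 (hR h3) with h5 | h5
        · exact Finset.disjoint_left.1 hOZ h5 h4
        · exact Finset.disjoint_left.1 hQ h5 hw1
    · rw [Finset.mem_singleton.1 h3] at hw1
      exact hy hw1
  · rcases Finset.mem_union.1 hp with h2 | h2
    · exact Finset.mem_union_left _ (Finset.mem_inter.1 h2).1
    · exact hCR h2

/-- The constant of KEY. -/
def k0 (n M : ℕ) : ℕ := 566 * M + 4 * n + 4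

/-- If all vertices of `U` are attached by themselves in both directions through `Om`, then `U` is
`k0`-colourable or there is a subdivision. There is no condition on the colouring of `Om`. -/
theorem blob {a : V → V → Prop} (hirr : ∀ v, ¬ a v v) {n M N : ℕ} (hM : 1 ≤ M)
    (tl hd : Fin M → Fin n) {Om Z U : Finset V} (hUO : Disjoint U Om)
    (hUZ : Disjoint U Z) (hZ : Z.card + 2 * M ≤ 2 * N + 1)
    (hatt : ∀ y ∈ U, Att2 a Om Z N {y}) (hU : ¬ Col a U (k0 n M)) : Succ a tl hd := by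
  have hU' : ¬ Col a U (2 * (2 * (70 * (2 * M) + 1) + n) + 2 * (3 * M + n)) := by
    intro hc
    exact hU (hc.mono (Finset.Subset.refl _) (by unfold k0; omega))
  obtain ⟨W, hWU, hW, hins⟩ := thmA (c := 3 * M + n) (by omega) hU'
  have hWc : n ≤ W.card := by
    by_contra hlt
    exact hW ((Col.card hirr W).mono (Finset.Subset.refl _) (by omega))
  obtain ⟨W0, hW0, hW0c⟩ := Finset.exists_subset_card_eq hWc
  obtain ⟨x, hx, hxW⟩ : ∃ x : Fin n → V, Function.Injective x ∧ ∀ i, x i ∈ W := by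
    refine ⟨fun i => ((W0.equivFin.symm (Fin.cast hW0c.symm i) : W0) : V), ?_, fun i =>
      hW0 (W0.equivFin.symm (Fin.cast hW0c.symm i)).2⟩
    intro i j hij
    exact Fin.cast_injective _ (W0.equivFin.symm.injective (Subtype.ext hij))
  obtain ⟨ℬ, hne, hb, hdis, hdeg⟩ := bags hirr (by omega) hW
  obtain ⟨T, h1, h2, h3⟩ := router_end (x := x) hM tl hd hUO.symm hUZ.symm hZ
    (fun i => hWU (hxW i)) (fun i => (hatt _ (hWU (hxW i))).1) hne (fun b hb1 =>
      ⟨(hb b hb1).1, (hb b hb1).2.trans hWU⟩) hdis hdeg (fun b hb1 => by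
      obtain ⟨v, hv⟩ := (hb b hb1).1.1
      have hbU := (hb b hb1).2.trans hWU
      refine (hatt v (hbU hv)).2.mono_set (Finset.singleton_subset_iff.2 hv) ?_
      rw [Finset.disjoint_union_right]
      exact ⟨hUO.mono_left hbU, hUZ.mono_left hbU⟩) hxW
    (fun b hb1 => by
      obtain ⟨v, hv⟩ := (hb b hb1).1.1
      exact ⟨v, hv, (hb b hb1).2 hv⟩) hins
  exact ⟨x, T, hx, h1, h2, h3⟩

/-- Without a subdivision the set of all vertices which are attached in both directions through
`Om` is `k0`-colourable, for every world `Om`. -/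
theorem col_attached {a : V → V → Prop} (hirr : ∀ v, ¬ a v v) {n M N : ℕ} (hM : 1 ≤ M)
    {tl hd : Fin M → Fin n} (hno : ¬ Succ a tl hd) {Om Z K : Finset V}
    (hKO : Disjoint K Om) (hKZ : Disjoint K Z) (hZ : Z.card + 2 * M ≤ 2 * N + 1) :
    Col a (K.filter (fun v => Att2 a Om Z N {v})) (k0 n M) := by
  by_contra hc
  exact hno (blob hirr hM tl hd (hKO.mono_left (Finset.filter_subset _ _))
    (hKZ.mono_left (Finset.filter_subset _ _)) hZ (fun y hy => (Finset.mem_filter.1 hy).2) hc)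

/-- KEY. If every strongly connected subset of `K` which is not `g`-colourable is attached in both
directions through `Om`, then `K` is `(g + N + k0)`-colourable or there is a subdivision. There is
no condition on the colouring of `Om`. -/
theorem key {a : V → V → Prop} (hirr : ∀ v, ¬ a v v) {n M N g : ℕ} (hM : 1 ≤ M)
    (tl hd : Fin M → Fin n) {Om Z K : Finset V} (hOZ : Disjoint Om Z) (hKO : Disjoint K Om)
    (hKZ : Disjoint K Z) (hZ : Z.card + 2 * M ≤ 2 * N + 1)
    (hatt : ∀ S ⊆ K, Conn a S → ¬ Col a S g → Att2 a Om Z N S)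
    (hK : ¬ Col a K (g + N + k0 n M)) : Succ a tl hd := by
  obtain ⟨Q, hQK, hQ, hQmax⟩ := exists_max_col a K (g + N)
  have hKOZ : Disjoint K (Om ∪ Z) := Finset.disjoint_union_right.2 ⟨hKO, hKZ⟩
  have hQOZ : Disjoint Q (Om ∪ Z) := hKOZ.mono_left hQK
  -- every vertex outside `Q` is attached by itself
  have hsingle : ∀ y ∈ K \ Q, Att2 a (Om ∪ Q) Z N {y} := by
    intro y hy
    obtain ⟨hyK, hyQ⟩ := Finset.mem_sdiff.1 hy
    have hyO : y ∉ Om ∪ Z := Finset.disjoint_left.1 hKOZ hyK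
    have hrob := robust_vertex hQ (hQmax y hyK hyQ)
    refine ⟨attB_of_comp hyO hQOZ hOZ fun T hT hyT => ?_,
      attB_of_comp hyO hQOZ hOZ fun T hT hyT => ?_⟩
    · obtain ⟨C, h1, h2, h3, h4, h5⟩ := hrob T hT.le hyT
      exact ⟨C, h1, h2, h3, h4, (hatt C (h1.trans (Finset.insert_subset hyK hQK)) h4 h5).1⟩
    · obtain ⟨C, h1, h2, h3, h4, h5⟩ := hrob T hT.le hyT
      exact ⟨C, h1, h2, h3, conn_rev h4,
        (hatt C (h1.trans (Finset.insert_subset hyK hQK)) h4 h5).2⟩
  refine blob hirr hM tl hd (Om := Om ∪ Q) (U := K \ Q) ?_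
    (hKZ.mono_left Finset.sdiff_subset) hZ hsingle fun hc => hK ?_
  · rw [Finset.disjoint_union_right]
    exact ⟨hKO.mono_left Finset.sdiff_subset, Finset.sdiff_disjoint⟩
  · refine (hQ.union hc).mono ?_ le_rfl
    intro v hv
    by_cases hvQ : v ∈ Q
    · exact Finset.mem_union_left _ hvQ
    · exact Finset.mem_union_right _ (Finset.mem_sdiff.2 ⟨hv, hvQ⟩)

/-- KEY, contrapositive: without a subdivision every `K` which is not `(g + N + k0)`-colourable
has a rich strongly connected subset which is not attached through `Om`. -/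
theorem key_plus {a : V → V → Prop} (hirr : ∀ v, ¬ a v v) {n M N g : ℕ} (hM : 1 ≤ M)
    {tl hd : Fin M → Fin n} (hno : ¬ Succ a tl hd) {Om Z K : Finset V} (hOZ : Disjoint Om Z)
    (hKO : Disjoint K Om) (hKZ : Disjoint K Z) (hZ : Z.card + 2 * M ≤ 2 * N + 1)
    (hK : ¬ Col a K (g + N + k0 n M)) :
    ∃ S ⊆ K, Conn a S ∧ ¬ Col a S g ∧ ∃ R ⊆ Om,
      (nb a (Om ∪ Z) (R ∪ S)).card < N ∨ (nb (rev a) (Om ∪ Z) (R ∪ S)).card < N := by
  by_contra hcon
  push Not at hcon
  exact hno (key hirr hM tl hd hOZ hKO hKZ hZ (fun S hS hSc hSg =>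
    ⟨fun R hR => (hcon S hS hSc hSg R hR).1, fun R hR => (hcon S hS hSc hSg R hR).2⟩) hK)

/-- The exchange in the proof of SPLIT, one direction. -/
theorem exchange {b : V → V → Prop} {Om Z Y S B R : Finset V} {N : ℕ}
    (hYO : Disjoint Y (Om ∪ Z)) (hSO : Disjoint S (Om ∪ Z)) (hOZ : Disjoint Om Z)
    (hR : R ⊆ Om ∪ Y) (hB : Conn b B) (hBs : B ⊆ (Y \ nb b (Om ∪ Y ∪ Z) (R ∪ S)) ∪ S)
    (hBS : (B ∩ S).Nonempty) (hBa : AttB b Om Z N B) :
    N ≤ (nb b (Om ∪ Y ∪ Z) (R ∪ S)).card := by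
  have hBR : B ⊆ R ∪ S := by
    have h1 : B ∩ (R ∪ S) = B := by
      obtain ⟨s, hs⟩ := hBS
      obtain ⟨hs1, hs2⟩ := Finset.mem_inter.1 hs
      refine hB.eq_of_closed Finset.inter_subset_left ⟨s, Finset.mem_inter.2 ⟨hs1,
        Finset.mem_union_right _ hs2⟩⟩ ?_
      intro p hp q hq hpq
      refine Finset.mem_inter.2 ⟨hq, ?_⟩
      by_contra hqR
      rcases Finset.mem_union.1 (hBs hq) with h2 | h2
      · obtain ⟨h3, h4⟩ := Finset.mem_sdiff.1 h2
        apply h4
        rw [mem_nb]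
        exact ⟨Finset.mem_union_left _ (Finset.mem_union_right _ h3), hqR, p,
          (Finset.mem_inter.1 hp).2, hpq⟩
      · exact hqR (Finset.mem_union_right _ h2)
    rw [← h1]
    exact Finset.inter_subset_right
  refine (hBa (R ∩ Om) Finset.inter_subset_right).trans (Finset.card_le_card ?_)
  intro w hw
  rw [mem_nb] at hw
  obtain ⟨hw1, hw2, p, hp, hpw⟩ := hw
  rw [Finset.mem_union, not_or] at hw2
  rw [mem_nb]
  refine ⟨?_, ?_, p, ?_, hpw⟩
  · rcases Finset.mem_union.1 hw1 with h2 | h2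
    · exact Finset.mem_union_left _ (Finset.mem_union_left _ h2)
    · exact Finset.mem_union_right _ h2
  · intro h2
    rcases Finset.mem_union.1 h2 with h3 | h3
    · rcases Finset.mem_union.1 hw1 with h4 | h4
      · exact hw2.1 (Finset.mem_inter.2 ⟨h3, h4⟩)
      · rcases Finset.mem_union.1 (hR h3) with h5 | h5
        · exact Finset.disjoint_left.1 hOZ h5 h4
        · exact Finset.disjoint_left.1 hYO h5 hw1
    · exact Finset.disjoint_left.1 hSO h3 hw1
  · rcases Finset.mem_union.1 hp with h2 | h2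
    · exact Finset.mem_union_left _ (Finset.mem_inter.1 h2).1
    · exact hBR h2

/-- SPLIT. Without a subdivision every `K` is the union of a `(2 * N + k0)`-colourable set and of a
set `Y` without strongly connected subsets which are attached (in both directions) through
`Om`. -/
theorem split {a : V → V → Prop} (hirr : ∀ v, ¬ a v v) {n M N : ℕ} (hM : 1 ≤ M)
    {tl hd : Fin M → Fin n} (hno : ¬ Succ a tl hd) {Om Z K : Finset V} (hOZ : Disjoint Om Z)
    (hKO : Disjoint K Om) (hKZ : Disjoint K Z) (hZ : Z.card + 2 * M ≤ 2 * N + 1) :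
    ∃ Y ⊆ K, Col a (K \ Y) (2 * N + k0 n M) ∧ (∀ B ⊆ Y, Conn a B → ¬ Att2 a Om Z N B) ∧
      ∀ S ⊆ K \ Y, Conn a S → N ≤ S.card → Att2 a (Om ∪ Y) Z N S := by
  obtain ⟨Y, hY, hmax⟩ := Finset.exists_max_image (K.powerset.filter
    (fun Y => ∀ B ⊆ Y, Conn a B → ¬ Att2 a Om Z N B)) Finset.card
    ⟨∅, Finset.mem_filter.2 ⟨Finset.mem_powerset.2 (Finset.empty_subset _), fun B hB hBc =>
      absurd (Finset.subset_empty.1 hB) hBc.1.ne_empty⟩⟩
  rw [Finset.mem_filter, Finset.mem_powerset] at hY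
  obtain ⟨hYK, hYn⟩ := hY
  have hKOZ : Disjoint K (Om ∪ Z) := Finset.disjoint_union_right.2 ⟨hKO, hKZ⟩
  have hYO : Disjoint Y (Om ∪ Z) := hKOZ.mono_left hYK
  -- the exchange
  have hex : ∀ S ⊆ K \ Y, Conn a S → N ≤ S.card → ∀ T ⊆ Y, T.card < N →
      ∃ B, B ⊆ (Y \ T) ∪ S ∧ (B ∩ S).Nonempty ∧ Conn a B ∧ Att2 a Om Z N B := by
    intro S hS _ hSN T hTY hT
    have hdis : Disjoint (Y \ T) S := by
      rw [Finset.disjoint_left]
      intro v hv hvS
      exact (Finset.mem_sdiff.1 (hS hvS)).2 (Finset.mem_sdiff.1 hv).1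
    have hcard : Y.card < ((Y \ T) ∪ S).card := by
      rw [Finset.card_union_of_disjoint hdis]
      have h1 := Finset.card_sdiff_add_card_eq_card hTY
      omega
    have hsub : (Y \ T) ∪ S ⊆ K :=
      Finset.union_subset (Finset.sdiff_subset.trans hYK) (hS.trans Finset.sdiff_subset)
    by_contra hcon
    push Not at hcon
    have h1 := hmax ((Y \ T) ∪ S) (Finset.mem_filter.2 ⟨Finset.mem_powerset.2 hsub, ?_⟩)
    · omega
    intro B hB hBc hBa
    by_cases hBS : (B ∩ S).Nonempty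
    · exact hcon B hB hBS hBc hBa
    · refine hYn B ?_ hBc hBa
      intro v hv
      rcases Finset.mem_union.1 (hB hv) with h2 | h2
      · exact (Finset.mem_sdiff.1 h2).1
      · exact absurd ⟨v, Finset.mem_inter.2 ⟨hv, h2⟩⟩ hBS
  have hnbY : ∀ (b : V → V → Prop) (R S : Finset V),
      ((nb b (Om ∪ Y ∪ Z) (R ∪ S)) ∩ Y).card ≤ (nb b (Om ∪ Y ∪ Z) (R ∪ S)).card := fun b R S =>
    Finset.card_le_card Finset.inter_subset_left
  have hatt : ∀ S ⊆ K \ Y, Conn a S → N ≤ S.card → Att2 a (Om ∪ Y) Z N S := by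
    intro S hS hSc hSN
    have hSO : Disjoint S (Om ∪ Z) := hKOZ.mono_left (hS.trans Finset.sdiff_subset)
    constructor
    · intro R hR
      by_contra hlt
      push Not at hlt
      obtain ⟨B, hB, hBS, hBc, hBa⟩ := hex S hS hSc hSN
        ((nb a (Om ∪ Y ∪ Z) (R ∪ S)) ∩ Y) Finset.inter_subset_right
        ((hnbY a R S).trans_lt hlt)
      refine absurd (exchange hYO hSO hOZ hR hBc ?_ hBS hBa.1) (not_le.2 hlt)
      intro v hv
      rcases Finset.mem_union.1 (hB hv) with h1 | h1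
      · obtain ⟨h2, h3⟩ := Finset.mem_sdiff.1 h1
        exact Finset.mem_union_left _ (Finset.mem_sdiff.2 ⟨h2, fun h4 =>
          h3 (Finset.mem_inter.2 ⟨h4, h2⟩)⟩)
      · exact Finset.mem_union_right _ h1
    · intro R hR
      by_contra hlt
      push Not at hlt
      obtain ⟨B, hB, hBS, hBc, hBa⟩ := hex S hS hSc hSN
        ((nb (rev a) (Om ∪ Y ∪ Z) (R ∪ S)) ∩ Y) Finset.inter_subset_right
        ((hnbY (rev a) R S).trans_lt hlt)
      refine absurd (exchange hYO hSO hOZ hR (conn_rev hBc) ?_ hBS hBa.2) (not_le.2 hlt)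
      intro v hv
      rcases Finset.mem_union.1 (hB hv) with h1 | h1
      · obtain ⟨h2, h3⟩ := Finset.mem_sdiff.1 h1
        exact Finset.mem_union_left _ (Finset.mem_sdiff.2 ⟨h2, fun h4 =>
          h3 (Finset.mem_inter.2 ⟨h4, h2⟩)⟩)
      · exact Finset.mem_union_right _ h1
  refine ⟨Y, hYK, ?_, hYn, hatt⟩
  by_contra hcol
  refine hno (key hirr hM tl hd (Om := Om ∪ Y) (Z := Z) (K := K \ Y) (N := N) (g := N) ?_ ?_ ?_ hZ
    ?_ ?_)
  · exact Finset.disjoint_union_left.2 ⟨hOZ, hKZ.mono_left hYK⟩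
  · exact Finset.disjoint_union_right.2 ⟨hKO.mono_left Finset.sdiff_subset,
      Finset.sdiff_disjoint⟩
  · exact hKZ.mono_left Finset.sdiff_subset
  · intro S hS hSc hSg
    refine hatt S hS hSc ?_
    by_contra hlt
    exact hSg ((Col.card hirr S).mono (Finset.Subset.refl _) (by omega))
  · intro hc
    exact hcol (hc.mono (Finset.Subset.refl _) (by omega))

end Pool.Agent.Key86
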